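import Mathlib

/-!
# Partitions into two halves have small linear dimension in characteristic two
-/

open Module

namespace Pool.Agent.Results.MP_bfdf54_al.HalfPartitions

/-- There is a representation of the action of `G` on `Ω` over `F` of dimension `d`. -/
def HasRep (F : Type) [Field F] (G Ω : Type) [Group G] [MulAction G Ω] (d : ℕ) : Prop :=
  ∃ (V : Type) (_ : AddCommGroup V) (_ : Module F V) (_ : FiniteDimensional F V)
    (ρ : G →* (V →ₗ[F] V)) (φ : Ω → V), finrank F V = d ∧ Function.Injective φ ∧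
      ∀ g ω, φ (g • ω) = ρ g (φ ω)

/-- The `F`-linear dimension of an action. -/
noncomputable def linDim (F : Type) [Field F] (G Ω : Type) [Group G] [MulAction G Ω] : ℕ :=
  sInf {d | HasRep F G Ω d}

/-- Primitive actions: transitive, and only the two trivial invariant equivalence relations. -/
def IsPrimitive (G Ω : Type) [Group G] [MulAction G Ω] : Prop :=
  (∀ x y : Ω, ∃ g : G, g • x = y) ∧
    ∀ r : Setoid Ω, (∀ (g : G) (x y : Ω), r x y → r (g • x) (g • y)) → r = ⊥ ∨ r = ⊤

/-- Faithful actions. -/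
def IsFaithful (G Ω : Type) [Group G] [MulAction G Ω] : Prop :=
  ∀ g : G, (∀ ω : Ω, g • ω = ω) → g = 1

/-- The action of the symmetric group is equivalent to the action on `k`-subsets. -/
def IsSubsetAction (n k : ℕ) (Ω : Type) [MulAction (Equiv.Perm (Fin n)) Ω] : Prop :=
  ∃ e : Ω ≃ {s : Finset (Fin n) // s.card = k}, ∀ (g : Equiv.Perm (Fin n)) (ω : Ω),
    (e (g • ω)).1 = (e ω).1.image g

section
variable {m : ℕ}

/-- Partitions of the points into two sets of size `m`. -/
def Half (m : ℕ) : Type :=
  {P : Finset (Finset (Fin (2 * m))) // ∃ A : Finset (Fin (2 * m)), A.card = m ∧ P = {A, Aᶜ}}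

lemma image_compl' (g : Equiv.Perm (Fin (2 * m))) (A : Finset (Fin (2 * m))) :
    Aᶜ.image g = (A.image g)ᶜ := by
  ext x
  simp only [Finset.mem_image, Finset.mem_compl, not_exists, not_and]
  constructor
  · rintro ⟨y, hy, rfl⟩ z hz h
    exact hy (g.injective h ▸ hz)
  · intro h
    exact ⟨g.symm x, fun hx => h _ hx (g.apply_symm_apply x), g.apply_symm_apply x⟩

/-- The partition with parts `A` and its complement. -/
def mk (A : Finset (Fin (2 * m))) (h : A.card = m) : Half m := ⟨{A, Aᶜ}, A, h, rfl⟩

instance : MulAction (Equiv.Perm (Fin (2 * m))) (Half m) where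
  smul g P := ⟨P.1.image (fun A => A.image g), by
    obtain ⟨P, A, hA, rfl⟩ := P
    refine ⟨A.image g, by rw [Finset.card_image_of_injective _ g.injective, hA], ?_⟩
    rw [Finset.image_insert, Finset.image_singleton, image_compl']⟩
  one_smul P := by
    apply Subtype.ext
    show P.1.image (fun A => A.image (1 : Equiv.Perm (Fin (2 * m)))) = P.1
    simp
  mul_smul g h P := by
    apply Subtype.ext
    show P.1.image (fun A => A.image (g * h)) = (P.1.image (fun A => A.image h)).image
      (fun A => A.image g)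
    rw [Finset.image_image]
    congr 1
    funext A
    rw [Function.comp_apply, Finset.image_image]
    rfl

lemma card_image (g : Equiv.Perm (Fin (2 * m))) {A : Finset (Fin (2 * m))} (h : A.card = m) :
    (A.image g).card = m := by
  rw [Finset.card_image_of_injective _ g.injective, h]

lemma smul_mk (g : Equiv.Perm (Fin (2 * m))) (A : Finset (Fin (2 * m))) (h : A.card = m) :
    g • mk A h = mk (A.image g) (card_image g h) := by
  apply Subtype.ext
  show ({A, Aᶜ} : Finset (Finset (Fin (2 * m)))).image (fun A => A.image g) = _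
  rw [Finset.image_insert, Finset.image_singleton, image_compl']
  rfl

lemma mk_surj (P : Half m) : ∃ A h, P = mk A h := by
  obtain ⟨P, A, hA, rfl⟩ := P
  exact ⟨A, hA, rfl⟩

lemma mk_eq {A B : Finset (Fin (2 * m))} {hA : A.card = m} {hB : B.card = m} :
    mk A hA = mk B hB ↔ B = A ∨ B = Aᶜ := by
  constructor
  · intro h
    have h1 : ({A, Aᶜ} : Finset (Finset (Fin (2 * m)))) = {B, Bᶜ} := congrArg Subtype.val h
    have h2 : B ∈ ({A, Aᶜ} : Finset (Finset (Fin (2 * m)))) := by rw [h1]; simp
    simpa using h2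
  · rintro (rfl | rfl)
    · rfl
    · apply Subtype.ext
      show ({A, Aᶜ} : Finset (Finset (Fin (2 * m)))) = {Aᶜ, Aᶜᶜ}
      rw [compl_compl, Finset.pair_comm]

/-- Transitivity on sets of equal size. -/
lemma exists_perm {A B : Finset (Fin (2 * m))} (h : A.card = B.card) :
    ∃ g : Equiv.Perm (Fin (2 * m)), A.image g = B := by
  classical
  let e : {x // x ∈ A} ≃ {x // x ∈ B} := Finset.equivOfCardEq h
  refine ⟨e.extendSubtype, ?_⟩
  apply Finset.eq_of_subset_of_card_le
  · intro x hx
    obtain ⟨y, hy, rfl⟩ := Finset.mem_image.1 hx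
    exact e.extendSubtype_mem y hy
  · rw [Finset.card_image_of_injective _ (Equiv.injective _), h]

lemma image_swap_mem {A : Finset (Fin (2 * m))} {x y : Fin (2 * m)} (hx : x ∈ A) (hy : y ∈ A) :
    A.image (Equiv.swap x y) = A := by
  apply Finset.eq_of_subset_of_card_le
  · intro z hz
    obtain ⟨w, hw, rfl⟩ := Finset.mem_image.1 hz
    rw [Equiv.swap_apply_def]
    split_ifs
    · exact hy
    · exact hx
    · exact hw
  · rw [Finset.card_image_of_injective _ (Equiv.injective _)]

lemma image_swap_notMem {A : Finset (Fin (2 * m))} {x y : Fin (2 * m)} (hx : x ∉ A)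
    (hy : y ∉ A) : A.image (Equiv.swap x y) = A := by
  have := image_swap_mem (A := Aᶜ) (Finset.mem_compl.2 hx) (Finset.mem_compl.2 hy)
  rw [image_compl', compl_inj_iff] at this
  exact this

lemma mem_image_swap {A : Finset (Fin (2 * m))} {x y z : Fin (2 * m)} (hx : x ∈ A)
    (hy : y ∉ A) : z ∈ A.image (Equiv.swap x y) ↔ (z = y ∨ (z ∈ A ∧ z ≠ x)) := by
  rw [Finset.mem_image]
  constructor
  · rintro ⟨w, hw, rfl⟩
    by_cases h : w = x
    · left; rw [h, Equiv.swap_apply_left]
    · right
      have hwy : w ≠ y := fun e => hy (e ▸ hw)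
      rw [Equiv.swap_apply_of_ne_of_ne h hwy]
      exact ⟨hw, h⟩
  · rintro (rfl | ⟨h1, h2⟩)
    · exact ⟨x, hx, Equiv.swap_apply_left _ _⟩
    · exact ⟨z, h1, Equiv.swap_apply_of_ne_of_ne h2 (fun e => hy (e ▸ h1))⟩

lemma primitive (m : ℕ) : IsPrimitive (Equiv.Perm (Fin (2 * m))) (Half m) := by
  constructor
  · intro x y
    obtain ⟨A, hA, rfl⟩ := mk_surj x
    obtain ⟨B, hB, rfl⟩ := mk_surj y
    obtain ⟨g, hg⟩ := exists_perm (hA.trans hB.symm)
    refine ⟨g, ?_⟩
    rw [smul_mk, mk_eq]
    left; exact hg.symm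
  · intro r hr
    by_cases hbot : r = ⊥
    · exact Or.inl hbot
    right
    obtain ⟨x, y, hxy, hne⟩ : ∃ x y, r x y ∧ x ≠ y := by
      by_contra hcon
      push Not at hcon
      apply hbot
      ext x y
      exact ⟨fun h => hcon x y h, fun h => h ▸ r.refl _⟩
    obtain ⟨A, hA, rfl⟩ := mk_surj x
    obtain ⟨B, hB, rfl⟩ := mk_surj y
    rw [ne_eq, mk_eq, not_or] at hne
    have hAc : Aᶜ.card = m := by rw [Finset.card_compl, hA, Fintype.card_fin]; omega
    obtain ⟨a, haA, haB⟩ : ∃ a, a ∈ A ∧ a ∈ B := by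
      by_contra hcon
      push Not at hcon
      apply hne.2
      apply Finset.eq_of_subset_of_card_le
      · intro z hz
        rw [Finset.mem_compl]
        exact fun h => hcon z h hz
      · rw [hAc, hB]
    obtain ⟨b, hbA, hbB⟩ : ∃ b, b ∈ A ∧ b ∉ B := by
      by_contra hcon
      push Not at hcon
      apply hne.1
      exact (Finset.eq_of_subset_of_card_le hcon (by rw [hA, hB])).symm
    have h1 : r (mk B hB) (Equiv.swap a b • mk B hB) := by
      have h2 := hr (Equiv.swap a b) _ _ hxy
      have h3 : Equiv.swap a b • mk A hA = mk A hA := by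
        rw [smul_mk, mk_eq]
        left; exact (image_swap_mem haA hbA).symm
      rw [h3] at h2
      exact r.trans (r.symm hxy) h2
    have h2 : ∀ (C : Finset (Fin (2 * m))) (hC : C.card = m) (c d : Fin (2 * m)), c ∈ C →
        d ∉ C → r (mk C hC) (Equiv.swap c d • mk C hC) := by
      intro C hC c d hc hd
      obtain ⟨g, hg⟩ := exists_perm (hB.trans hC.symm)
      have hga : g a ∈ C := hg ▸ Finset.mem_image_of_mem g haB
      have hgb : g b ∉ C := by
        rw [← hg, Finset.mem_image]
        rintro ⟨z, hz, hz'⟩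
        exact hbB (g.injective hz' ▸ hz)
      obtain ⟨k, hkB, hka, hkb⟩ : ∃ k : Equiv.Perm (Fin (2 * m)), k • mk B hB = mk C hC ∧
          k a = c ∧ k b = d := by
        refine ⟨Equiv.swap (g a) c * (Equiv.swap (g b) d * g), ?_, ?_, ?_⟩
        · rw [mul_smul, mul_smul, smul_mk, smul_mk, smul_mk, mk_eq]
          left
          simp only [hg, image_swap_notMem hgb hd, image_swap_mem hga hc]
        · rw [Equiv.Perm.mul_apply, Equiv.Perm.mul_apply,
            Equiv.swap_apply_of_ne_of_ne (a := g b) (b := d) (x := g a)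
              (fun e => hgb (e ▸ hga)) (fun e => hd (e ▸ hga)), Equiv.swap_apply_left]
        · rw [Equiv.Perm.mul_apply, Equiv.Perm.mul_apply, Equiv.swap_apply_left,
            Equiv.swap_apply_of_ne_of_ne]
          · exact fun e => hd (e ▸ hga)
          · exact fun e => hd (e ▸ hc)
      have h3 := hr k _ _ h1
      rw [← mul_smul, Equiv.mul_swap_eq_swap_mul, mul_smul, hkB, hka, hkb] at h3
      exact h3
    have h3 : ∀ (t : ℕ) (C D : Finset (Fin (2 * m))) (hC : C.card = m) (hD : D.card = m),
        (C \ D).card = t → r (mk C hC) (mk D hD) := by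
      intro t
      induction t with
      | zero =>
        intro C D hC hD h
        have hsub : C ⊆ D := Finset.sdiff_eq_empty_iff_subset.1 (Finset.card_eq_zero.1 h)
        have : C = D := Finset.eq_of_subset_of_card_le hsub (by rw [hC, hD])
        subst this
        exact r.refl _
      | succ t ih =>
        intro C D hC hD h
        obtain ⟨c, hc⟩ : (C \ D).Nonempty := by
          rw [← Finset.card_pos]; omega
        rw [Finset.mem_sdiff] at hc
        obtain ⟨d, hd1, hd2⟩ : ∃ d, d ∈ D ∧ d ∉ C := by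
          by_contra hcon
          push Not at hcon
          have : D = C := Finset.eq_of_subset_of_card_le hcon (by rw [hC, hD])
          exact hc.2 (this ▸ hc.1)
        have e1 := h2 C hC c d hc.1 hd2
        rw [smul_mk] at e1
        refine r.trans e1 (ih _ _ _ hD ?_)
        have : C.image (Equiv.swap c d) \ D = (C \ D).erase c := by
          ext z
          rw [Finset.mem_sdiff, mem_image_swap hc.1 hd2, Finset.mem_erase, Finset.mem_sdiff]
          constructor
          · rintro ⟨rfl | ⟨h5, h6⟩, h7⟩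
            · exact absurd hd1 h7
            · exact ⟨h6, h5, h7⟩
          · rintro ⟨h5, h6, h7⟩
            exact ⟨Or.inr ⟨h6, h5⟩, h7⟩
        rw [this, Finset.card_erase_of_mem (Finset.mem_sdiff.2 hc), h]
        rfl
    ext x y
    obtain ⟨C, hC, rfl⟩ := mk_surj x
    obtain ⟨D, hD, rfl⟩ := mk_surj y
    exact ⟨fun _ => trivial, fun _ => h3 _ C D hC hD rfl⟩

lemma faithful (hm : 3 ≤ m) : IsFaithful (Equiv.Perm (Fin (2 * m))) (Half m) := by
  intro g hg
  by_contra hne
  obtain ⟨x, hx⟩ : ∃ x, g x ≠ x := by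
    by_contra hcon
    push Not at hcon
    exact hne (Equiv.ext hcon)
  obtain ⟨z, hz⟩ : ∃ z, z ∉ ({x, g x} : Finset (Fin (2 * m))) := by
    by_contra hcon
    push Not at hcon
    have h1 : (Finset.univ : Finset (Fin (2 * m))) ⊆ {x, g x} := fun z _ => hcon z
    have h2 := Finset.card_le_card h1
    have h3 : ({x, g x} : Finset (Fin (2 * m))).card ≤ 2 := Finset.card_le_two
    rw [Finset.card_univ, Fintype.card_fin] at h2
    omega
  simp only [Finset.mem_insert, Finset.mem_singleton, not_or] at hz
  have hsub : ({x, z, g z} : Finset (Fin (2 * m))) ⊆ {g x}ᶜ := by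
    intro w hw
    simp only [Finset.mem_insert, Finset.mem_singleton] at hw
    rw [Finset.mem_compl, Finset.mem_singleton]
    rcases hw with rfl | rfl | rfl
    · exact hx.symm
    · exact hz.2
    · exact fun h => hz.1 (g.injective h)
  obtain ⟨A, hA1, hA2, hA3⟩ := Finset.exists_subsuperset_card_eq hsub
    (n := m) (Finset.card_le_three.trans hm)
    (by rw [Finset.card_compl, Finset.card_singleton, Fintype.card_fin]; omega)
  have hxA : x ∈ A := hA1 (by simp)
  have hzA : z ∈ A := hA1 (by simp)
  have hgzA : g z ∈ A := hA1 (by simp)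
  have hgx : g x ∉ A := fun h => by
    have := hA2 h
    simp at this
  have := hg (mk A hA3)
  rw [smul_mk, eq_comm, mk_eq] at this
  rcases this with h | h
  · exact hgx (h ▸ Finset.mem_image_of_mem g hxA)
  · have : g z ∈ Aᶜ := h ▸ Finset.mem_image_of_mem g hzA
    exact Finset.mem_compl.1 this hgzA

lemma not_subset (hm : 3 ≤ m) (k : ℕ) : ¬ IsSubsetAction (2 * m) k (Half m) := by
  rintro ⟨e, he⟩
  obtain ⟨A, -, hA⟩ : ∃ A ⊆ (Finset.univ : Finset (Fin (2 * m))), A.card = m :=
    Finset.exists_subset_card_eq (by rw [Finset.card_univ, Fintype.card_fin]; omega)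
  have hAc : Aᶜ.card = m := by rw [Finset.card_compl, hA, Fintype.card_fin]; omega
  have key : ∀ x y : Fin (2 * m), ∃ g : Equiv.Perm (Fin (2 * m)), g • mk A hA = mk A hA ∧
      g x = y := by
    intro x y
    by_cases hx : x ∈ A
    · by_cases hy : y ∈ A
      · refine ⟨Equiv.swap x y, ?_, Equiv.swap_apply_left _ _⟩
        rw [smul_mk, mk_eq]; left; exact (image_swap_mem hx hy).symm
      · obtain ⟨h, hh⟩ := exists_perm (hA.trans hAc.symm)
        have hhx : h x ∈ Aᶜ := hh ▸ Finset.mem_image_of_mem h hx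
        refine ⟨Equiv.swap (h x) y * h, ?_, ?_⟩
        · rw [mul_smul, smul_mk, smul_mk, mk_eq]
          right
          rw [hh, image_swap_mem hhx (Finset.mem_compl.2 hy), compl_compl]
        · rw [Equiv.Perm.mul_apply, Equiv.swap_apply_left]
    · by_cases hy : y ∈ A
      · obtain ⟨h, hh⟩ := exists_perm (hA.trans hAc.symm)
        have hhx : h x ∉ Aᶜ := by
          rw [← hh, Finset.mem_image]
          rintro ⟨z, hz, hz'⟩
          exact hx (h.injective hz' ▸ hz)
        refine ⟨Equiv.swap (h x) y * h, ?_, ?_⟩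
        · rw [mul_smul, smul_mk, smul_mk, mk_eq]
          right
          rw [hh, image_swap_notMem hhx (fun h' => Finset.mem_compl.1 h' hy), compl_compl]
        · rw [Equiv.Perm.mul_apply, Equiv.swap_apply_left]
      · refine ⟨Equiv.swap x y, ?_, Equiv.swap_apply_left _ _⟩
        rw [smul_mk, mk_eq]; left; exact (image_swap_notMem hx hy).symm
  have hS : (e (mk A hA)).1 = ∅ ∨ (e (mk A hA)).1 = Finset.univ := by
    by_contra hcon
    rw [not_or] at hcon
    obtain ⟨x, hx⟩ := Finset.nonempty_iff_ne_empty.2 hcon.1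
    obtain ⟨y, hy⟩ : ∃ y, y ∉ (e (mk A hA)).1 := by
      by_contra h
      push Not at h
      exact hcon.2 (Finset.eq_univ_iff_forall.2 h)
    obtain ⟨g, hg1, hg2⟩ := key x y
    have := he g (mk A hA)
    rw [hg1] at this
    apply hy
    rw [this, ← hg2]
    exact Finset.mem_image_of_mem g hx
  have hk : k = 0 ∨ k = 2 * m := by
    rcases hS with h | h
    · left; rw [← (e (mk A hA)).2, h, Finset.card_empty]
    · right; rw [← (e (mk A hA)).2, h, Finset.card_univ, Fintype.card_fin]
  have hsub : ∀ ω ω' : Half m, ω = ω' := by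
    intro ω ω'
    apply e.injective
    apply Subtype.ext
    rcases hk with h | h
    · rw [Finset.card_eq_zero.1 ((e ω).2.trans h), Finset.card_eq_zero.1 ((e ω').2.trans h)]
    · rw [(Finset.card_eq_iff_eq_univ _).1 ((e ω).2.trans (h.trans (Fintype.card_fin _).symm)),
        (Finset.card_eq_iff_eq_univ _).1 ((e ω').2.trans (h.trans (Fintype.card_fin _).symm))]
  have h1 := faithful hm (Equiv.swap (⟨0, by omega⟩ : Fin (2 * m)) ⟨1, by omega⟩)
    (fun ω => hsub _ _)
  rw [Equiv.swap_eq_one_iff] at h1
  simp at h1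

/-- The space of functions to `F_2` modulo constants. -/
abbrev Q (m : ℕ) : Type := (Fin (2 * m) → ZMod 2) ⧸ (Submodule.span (ZMod 2) {1} :
  Submodule (ZMod 2) (Fin (2 * m) → ZMod 2))

/-- Permutation of the coordinates. -/
def permMap (g : Equiv.Perm (Fin (2 * m))) :
    (Fin (2 * m) → ZMod 2) →ₗ[ZMod 2] (Fin (2 * m) → ZMod 2) where
  toFun f x := f (g⁻¹ x)
  map_add' _ _ := rfl
  map_smul' _ _ := rfl

lemma permMap_le (g : Equiv.Perm (Fin (2 * m))) :
    (Submodule.span (ZMod 2) {1} : Submodule (ZMod 2) (Fin (2 * m) → ZMod 2)) ≤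
      (Submodule.span (ZMod 2) {1}).comap (permMap g) := by
  rw [Submodule.span_le]
  rintro _ rfl
  exact Submodule.mem_span_singleton_self _

/-- The representation on the quotient. -/
def rep : Equiv.Perm (Fin (2 * m)) →* (Q m →ₗ[ZMod 2] Q m) where
  toFun g := Submodule.mapQ _ _ (permMap g) (permMap_le g)
  map_one' := by
    apply Submodule.linearMap_qext
    ext f x
    rfl
  map_mul' g h := by
    apply Submodule.linearMap_qext
    apply LinearMap.ext
    intro f
    show Submodule.Quotient.mk _ = Submodule.Quotient.mk _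
    congr 1

/-- The class of the indicator function. -/
def ind (A : Finset (Fin (2 * m))) : Q m :=
  Submodule.Quotient.mk (fun x => if x ∈ A then 1 else 0)

lemma rep_ind (g : Equiv.Perm (Fin (2 * m))) (A : Finset (Fin (2 * m))) :
    rep g (ind A) = ind (A.image g) := by
  show Submodule.Quotient.mk _ = Submodule.Quotient.mk _
  congr 1
  funext x
  show (if g⁻¹ x ∈ A then (1 : ZMod 2) else 0) = if x ∈ A.image g then 1 else 0
  have : g⁻¹ x ∈ A ↔ x ∈ A.image g := by
    rw [Finset.mem_image]
    constructor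
    · intro h
      exact ⟨_, h, g.apply_symm_apply x⟩
    · rintro ⟨y, hy, rfl⟩
      have : g⁻¹ (g y) = y := g.symm_apply_apply y
      rwa [this]
  simp only [this]

lemma ind_eq {A B : Finset (Fin (2 * m))} : ind A = ind B ↔ B = A ∨ B = Aᶜ := by
  unfold ind
  rw [Submodule.Quotient.eq, Submodule.mem_span_singleton]
  constructor
  · rintro ⟨c, hc⟩
    have hc' : ∀ x, c = (if x ∈ A then (1 : ZMod 2) else 0) - (if x ∈ B then 1 else 0) := by
      intro x
      have := congrFun hc x
      simpa using this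
    have h01 : ∀ c : ZMod 2, c = 0 ∨ c = 1 := by decide
    have h11 : (1 : ZMod 2) ≠ 0 := by decide
    rcases h01 c with rfl | rfl
    · left
      ext x
      have := hc' x
      by_cases h1 : x ∈ A
      · by_cases h2 : x ∈ B
        · exact ⟨fun _ => h1, fun _ => h2⟩
        · rw [if_pos h1, if_neg h2, sub_zero] at this
          exact absurd this.symm h11
      · by_cases h2 : x ∈ B
        · rw [if_neg h1, if_pos h2] at this
          exact absurd (sub_eq_zero.1 this.symm).symm h11
        · exact ⟨fun h => absurd h h2, fun h => absurd h h1⟩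
    · right
      ext x
      have := hc' x
      rw [Finset.mem_compl]
      by_cases h1 : x ∈ A
      · by_cases h2 : x ∈ B
        · rw [if_pos h1, if_pos h2, sub_self] at this
          exact absurd this h11
        · exact ⟨fun h => absurd h h2, fun h => absurd h1 h⟩
      · by_cases h2 : x ∈ B
        · exact ⟨fun _ => h1, fun _ => h2⟩
        · rw [if_neg h1, if_neg h2, sub_self] at this
          exact absurd this h11
  · rintro (rfl | rfl)
    · exact ⟨0, by ext x; simp⟩
    · refine ⟨1, ?_⟩
      ext x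
      by_cases h : x ∈ A <;> simp [h]

lemma hasRep (hm : 3 ≤ m) : HasRep (ZMod 2) (Equiv.Perm (Fin (2 * m))) (Half m) (2 * m - 1) := by
  classical
  let φ : Half m → Q m := fun P => ind (Classical.choose P.2)
  have hφ : ∀ A h, φ (mk A h) = ind A := by
    intro A h
    obtain ⟨h1, h2⟩ := Classical.choose_spec (mk A h).2
    show ind (Classical.choose (mk A h).2) = ind A
    rw [ind_eq, ← mk_eq (hA := h1) (hB := h)]
    apply Subtype.ext
    exact h2.symm
  refine ⟨Q m, inferInstance, inferInstance, inferInstance, rep, φ, ?_, ?_, ?_⟩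
  · have h1 : finrank (ZMod 2) (Q m) + finrank (ZMod 2) (Submodule.span (ZMod 2) {1} :
        Submodule (ZMod 2) (Fin (2 * m) → ZMod 2)) = finrank (ZMod 2) (Fin (2 * m) → ZMod 2) :=
      Submodule.finrank_quotient_add_finrank _
    rw [finrank_span_singleton, Module.finrank_fin_fun] at h1
    · omega
    · intro h
      have := congrFun h ⟨0, by omega⟩
      simp at this
  · intro x y hxy
    obtain ⟨A, hA, rfl⟩ := mk_surj x
    obtain ⟨B, hB, rfl⟩ := mk_surj y
    rw [hφ, hφ] at hxy
    rw [mk_eq]
    exact ind_eq.1 hxy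
  · intro g ω
    obtain ⟨A, hA, rfl⟩ := mk_surj ω
    rw [smul_mk, hφ, hφ, rep_ind]

end

/-- For every `m ≥ 3` and `n = 2m` there is a faithful primitive action of the symmetric group
of degree `n`, not equivalent to an action on `k`-subsets, whose linear dimension over the field
with two elements is at most `n - 1`, hence smaller than `(n² - 3n)/2`. -/
theorem result (m : ℕ) (hm : 3 ≤ m) :
    ∃ (Ω : Type) (_ : Finite Ω) (_ : MulAction (Equiv.Perm (Fin (2 * m))) Ω),
      IsFaithful (Equiv.Perm (Fin (2 * m))) Ω ∧ IsPrimitive (Equiv.Perm (Fin (2 * m))) Ω ∧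
      (∀ k, ¬ IsSubsetAction (2 * m) k Ω) ∧
      linDim (ZMod 2) (Equiv.Perm (Fin (2 * m))) Ω ≤ 2 * m - 1 ∧
      (linDim (ZMod 2) (Equiv.Perm (Fin (2 * m))) Ω : ℝ) <
        (((2 * m : ℕ) : ℝ) ^ 2 - 3 * ((2 * m : ℕ) : ℝ)) / 2 := by
  have h : linDim (ZMod 2) (Equiv.Perm (Fin (2 * m))) (Half m) ≤ 2 * m - 1 :=
    Nat.sInf_le (hasRep hm)
  refine ⟨Half m, Subtype.finite, inferInstance, faithful hm, primitive m, not_subset hm, h, ?_⟩
  have h1 : (linDim (ZMod 2) (Equiv.Perm (Fin (2 * m))) (Half m) : ℝ) + 1 ≤ 2 * m := by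
    have : linDim (ZMod 2) (Equiv.Perm (Fin (2 * m))) (Half m) + 1 ≤ 2 * m := by omega
    exact_mod_cast this
  have h2 : (3 : ℝ) ≤ m := by exact_mod_cast hm
  push_cast
  nlinarith

end Pool.Agent.Results.MP_bfdf54_al.HalfPartitions
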